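import Mathlib
import Pool.Agent.Helper36y.Lay

set_option autoImplicit false

/-!
# Uniform bounds for `c(F)` for graphs `F` of bounded degree, in terms of complete graphs

`c(F)` is the limsup of the maxima of `χ(G) / (Δ / log Δ)` over the `F`-free graphs `G` of maximum
degree `Δ` (`Pool.Agent.TH855.c`).

Idea.  Let `F` be coloured with the colours `0, …, r - 1` such that every vertex has at most `d`
neighbours of smaller colour.  Add to `F` one hub for every colour, adjacent to all vertices of the other
colours (and to the other hubs).  Now every vertex of the largest colour has at most `d + r - 1`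
neighbours, they induce a connected subgraph because of the hubs, and the hub of its colour is adjacent
to all of them.  So the graph is a tree-like gluing of pieces of the graph without the vertices of the
largest colour (except the hub), and the theorem `TreeGluing` of the starting files applies.  After `r`
steps only the hubs are left.
-/

namespace Pool.Agent.Results.MP_349e33_co.BoundedDegree

open Pool.Agent.TH855 Classical
open scoped ENNReal

/-- (1) Let `r ≥ 3` and let `F` be a finite graph with a proper colouring with the colours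
`0, …, r - 1` such that every vertex has at most `d` neighbours of smaller colour. Then
`c(F) ≤ (d + r - 1) ^ r · c(K_r)`; the bound does not depend on the size of `F`.
(2) For `d ≥ 2` the numbers `c(F)`, `F` of maximum degree at most `d`, are bounded if and only if
`c(K_(d+1))` is finite. -/
theorem result :
    (∀ (r d : ℕ), 3 ≤ r → ∀ (W : Type) [Fintype W] (F : SimpleGraph W) (C : F.Coloring (Fin r)),
      (∀ w, {u | F.Adj w u ∧ C u < C w}.ncard ≤ d) →
      c F ≤ ((d + (r - 1)) ^ r : ℕ) * c (⊤ : SimpleGraph (Fin r))) ∧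
    (∀ d : ℕ, 2 ≤ d →
      ((∃ K : ℝ≥0∞, K < ∞ ∧ ∀ (W : Type) [Fintype W] (F : SimpleGraph W),
        (∀ w, {u | F.Adj w u}.ncard ≤ d) → c F ≤ K) ↔
      c (⊤ : SimpleGraph (Fin (d + 1))) < ∞)) := by
  have h1 : ∀ (r d : ℕ), 3 ≤ r → ∀ (W : Type) [Fintype W] (F : SimpleGraph W)
      (C : F.Coloring (Fin r)), (∀ w, {u | F.Adj w u ∧ C u < C w}.ncard ≤ d) →
      c F ≤ ((d + (r - 1)) ^ r : ℕ) * c (⊤ : SimpleGraph (Fin r)) :=
    fun r d hr W _ F C hd => Pool.Agent.Helper36y.layered hr F C (fun a b hab => C.valid hab) d hd
  refine ⟨h1, fun d hd => ⟨?_, ?_⟩⟩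
  · rintro ⟨K, hK, h⟩
    refine lt_of_le_of_lt (h (Fin (d + 1)) ⊤ fun w => ?_) hK
    have e : {u : Fin (d + 1) | (⊤ : SimpleGraph (Fin (d + 1))).Adj w u} = Set.univ \ {w} := by
      ext u
      simp only [SimpleGraph.top_adj, Set.mem_sdiff, Set.mem_univ, Set.mem_singleton_iff, true_and]
      exact ⟨fun h1 h2 => h1 h2.symm, fun h1 h2 => h1 h2.symm⟩
    rw [e, Set.ncard_sdiff_singleton_of_mem (Set.mem_univ _), Set.ncard_univ,
      Nat.card_eq_fintype_card, Fintype.card_fin]
    omega
  · intro h
    refine ⟨((d + (d + 1 - 1)) ^ (d + 1) : ℕ) * c (⊤ : SimpleGraph (Fin (d + 1))),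
      ENNReal.mul_lt_top (ENNReal.natCast_lt_top _) h, ?_⟩
    intro W _ F hF
    obtain ⟨C⟩ := Pool.Agent.Helper36y.greedy_col F d hF
    refine h1 (d + 1) d (by omega) W F C fun w => ?_
    refine (Set.ncard_le_ncard ?_ (Set.toFinite _)).trans (hF w)
    exact fun u hu => hu.1

end Pool.Agent.Results.MP_349e33_co.BoundedDegree
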